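import Pool.Agent.U868.RS.Comp
import Pool.Agent.U868.RS.Sum
import Pool.Agent.U868.RS.Pot

/-!
# MP_9cc147_pr: comparison of integer-valued surfaces with the discrete Gaussian

For every `lam > 0` there is `η > 0` such that the surface with any even interaction `u` whose
second differences are at most `η` in absolute value fluctuates at least as much as the discrete
Gaussian surface `lam * n ^ 2`, on every finite connected graph.  Applied to `u^M_n = U (n / M)`:
for every even continuous `U` of at least power growth with uniformly small second differences (in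
particular every even `C^2` function with bounded second derivative and `|x| ^ α` for
`0 < α ≤ 2`) and all large `M`, the corner height of `u^M` on the box of side `L` has at least the
second moment of the discrete Gaussian surface, for every `L`.
-/

set_option autoImplicit false

open Filter Topology

namespace Pool.Agent.Results.MP_9cc147_pr.GaussianComparison

open Pool.Agent.U868.RS

section

variable {V : Type} [Fintype V]

open Classical in
/-- The weight `exp (- ∑_{edges} u (m_x - m_y)) 1{m_v = 0}`; every edge occurs in the double sum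
twice, as `(x, y)` and as `(y, x)`, hence the factor `1/2` (in the theorem `u` is even). -/
noncomputable def weight (G : SimpleGraph V) (v : V) (u : ℤ → ℝ) (m : V → ℤ) : ℝ :=
  if m v = 0 then
    Real.exp (-((1 / 2) * ∑ x, ∑ y, if G.Adj x y then u (m x - m y) else 0)) else 0

/-- The expectation of `f` under the surface with interaction `u`, pinned at `v`. -/
noncomputable def mean (G : SimpleGraph V) (v : V) (u : ℤ → ℝ) (f : (V → ℤ) → ℝ) : ℝ :=
  (∑' m, weight G v u m * f m) / ∑' m, weight G v u m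

/-- The linear functional `∑ a_y m_y`. -/
noncomputable def lin (a : V → ℝ) (m : V → ℤ) : ℝ := ∑ y, a y * (m y : ℝ)

/-- The interaction `lam * n ^ 2` of the discrete Gaussian surface. -/
def gauss (lam : ℝ) (n : ℤ) : ℝ := lam * (n : ℝ) ^ 2

/-- The surface with interaction `u` on `G`, pinned at `v`, is well defined with finite second
moments, and it dominates the discrete Gaussian surface with interaction `lam * n ^ 2`: the second
moment of every linear functional is at least, and its characteristic function at most, that of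
the discrete Gaussian surface. -/
structure Dominates (G : SimpleGraph V) (v : V) (u : ℤ → ℝ) (lam : ℝ) : Prop where
  summable : Summable (weight G v u)
  pos : 0 < ∑' m, weight G v u m
  summable_sq : ∀ a : V → ℝ, Summable fun m => weight G v u m * lin a m ^ 2
  summable_gauss : Summable (weight G v (gauss lam))
  pos_gauss : 0 < ∑' m, weight G v (gauss lam) m
  summable_sq_gauss : ∀ a : V → ℝ, Summable fun m => weight G v (gauss lam) m * lin a m ^ 2
  moment : ∀ a : V → ℝ,
    mean G v (gauss lam) (fun m => lin a m ^ 2) ≤ mean G v u (fun m => lin a m ^ 2)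
  cos : ∀ a : V → ℝ,
    mean G v u (fun m => Real.cos (lin a m)) ≤ mean G v (gauss lam) (fun m => Real.cos (lin a m))

end

/-- The box with `(n + 1) ^ 2` vertices of the square lattice, with free boundary. -/
abbrev grid (n : ℕ) : SimpleGraph (Fin (n + 1) × Fin (n + 1)) :=
  (SimpleGraph.pathGraph (n + 1)).boxProd (SimpleGraph.pathGraph (n + 1))

/-- The second moment of the height at the corner `(n, n)` of the box of side `L = n + 1`, for
the surface with interaction `u` pinned at the corner `(0, 0)`. -/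
noncomputable def corner (u : ℤ → ℝ) (n : ℕ) : ℝ :=
  mean (grid n) (0, 0) u (fun m => (m (Fin.last n, Fin.last n) : ℝ) ^ 2)

/-- The lower limit, as `L → ∞`, of the second moment of the corner height divided by `log L`. -/
noncomputable def lowerRate (u : ℤ → ℝ) : EReal :=
  liminf (fun n : ℕ => ((corner u n / Real.log (n + 1) : ℝ) : EReal)) atTop

/-- `U` grows at least like a power: `U x / x ^ α → ∞` for some `α > 0`. -/
def PowerGrowth (U : ℝ → ℝ) : Prop :=
  ∃ α : ℝ, 0 < α ∧ Tendsto (fun x => U x / x ^ α) atTop atTop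

/-- The second differences of `U` with a small step are small, uniformly on the line. -/
def SmallSecondDifferences (U : ℝ → ℝ) : Prop :=
  ∀ ε : ℝ, 0 < ε → ∃ δ : ℝ, 0 < δ ∧ ∀ h : ℝ, 0 < h → h < δ → ∀ x : ℝ,
    |U (x + h) + U (x - h) - 2 * U x| ≤ ε

section

variable {V : Type} [Fintype V]

open Classical in
theorem weight_eq (G : SimpleGraph V) (v : V) (u : ℤ → ℝ) :
    weight G v u = We (Finset.univ.filter fun e : V × V => G.Adj e.1 e.2)
      (fun n => u n / 2) v := by
  funext m
  unfold weight We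
  split_ifs with h
  · rw [← Real.exp_sum]
    congr 1
    rw [Finset.sum_filter, Fintype.sum_prod_type, Finset.mul_sum, ← Finset.sum_neg_distrib]
    refine Finset.sum_congr rfl fun x _ => ?_
    rw [Finset.mul_sum, ← Finset.sum_neg_distrib]
    refine Finset.sum_congr rfl fun y _ => ?_
    simp only
    split_ifs
    · ring
    · simp
  · rfl

theorem weight_nonneg (G : SimpleGraph V) (v : V) (u : ℤ → ℝ) (m : V → ℤ) :
    0 ≤ weight G v u m := by
  unfold weight
  split_ifs
  · exact (Real.exp_pos _).le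
  · exact le_rfl

theorem weight_pos (G : SimpleGraph V) (v : V) (u : ℤ → ℝ) (h : Summable (weight G v u)) :
    0 < ∑' m, weight G v u m := by
  refine h.tsum_pos (weight_nonneg G v u) (0 : V → ℤ) ?_
  unfold weight
  rw [if_pos (by rfl)]
  exact Real.exp_pos _

theorem summ {G : SimpleGraph V} (hG : G.Connected) (v : V) {u : ℤ → ℝ} {α c C : ℝ}
    (hα : 0 < α) (hc : 0 < c) (hu : ∀ n : ℤ, c * |(n : ℝ)| ^ α - C ≤ u n) (a : V → ℝ) :
    Summable (weight G v u) ∧ Summable (fun m => weight G v u m * lin a m ^ 2) := by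
  classical
  have h := summ_We hG v (Finset.univ.filter fun e : V × V => G.Adj e.1 e.2)
    (fun a b hab => by simpa using hab) (w := fun n => u n / 2) (α := α) (c := c / 2)
    (C := C / 2) hα (by linarith) (fun n => by have := hu n; linarith) a
  rw [weight_eq]
  exact h

theorem gauss_growth {lam : ℝ} (n : ℤ) : lam * |(n : ℝ)| ^ (2 : ℝ) - 0 ≤ gauss lam n := by
  unfold gauss
  rw [Real.rpow_two, sq_abs, sub_zero]

theorem dominates_of {lam : ℝ} (hl : 0 < lam) {η : ℝ}
    (hη : ∀ w : ℤ → ℝ, (∀ n, |w (n + 1) + w (n - 1) - 2 * w n| ≤ η) → PK (Kq (lam / 2) w))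
    {u : ℤ → ℝ} (hu : ∀ n, |u (n + 1) + u (n - 1) - 2 * u n| ≤ 2 * η)
    (hg : ∃ α c C : ℝ, 0 < α ∧ 0 < c ∧ ∀ n : ℤ, c * |(n : ℝ)| ^ α - C ≤ u n)
    {G : SimpleGraph V} (hG : G.Connected) (v : V) : Dominates G v u lam := by
  classical
  obtain ⟨α, c, C, hα, hc, hgu⟩ := hg
  have hPK : PK (Kq (lam / 2) (fun n => u n / 2)) := by
    refine hη _ fun n => ?_
    have e : u (n + 1) / 2 + u (n - 1) / 2 - 2 * (u n / 2)
        = (u (n + 1) + u (n - 1) - 2 * u n) / 2 := by ring
    rw [e, abs_div, abs_two]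
    have := hu n
    linarith
  have s1 := fun a => summ hG v hα hc hgu a
  have s2 := fun a => summ hG v (u := gauss lam) (α := 2) (c := lam) (C := 0) (by norm_num) hl
    (fun n => gauss_growth n) a
  have eg : (fun n : ℤ => gauss lam n / 2) = fun n : ℤ => lam / 2 * (n : ℝ) ^ 2 := by
    funext n
    unfold gauss
    ring
  have p1 := weight_pos G v u (s1 0).1
  have p2 := weight_pos G v (gauss lam) (s2 0).1
  refine ⟨(s1 0).1, p1, fun a => (s1 a).2, (s2 0).1, p2, fun a => (s2 a).2, fun a => ?_,
    fun a => ?_⟩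
  · unfold mean
    rw [div_le_div_iff₀ p2 p1]
    have h1 := (s1 a)
    have h2 := (s2 a)
    rw [weight_eq] at h1 h2
    rw [weight_eq, weight_eq]
    rw [eg] at h2 ⊢
    have h := comp (Finset.univ.filter fun e : V × V => G.Adj e.1 e.2) v hPK a h1.1 h1.2 h2.1 h2.2
    rw [mul_comm]
    exact h
  · unfold mean
    rw [div_le_div_iff₀ p1 p2]
    have h1 := (s1 a)
    have h2 := (s2 a)
    rw [weight_eq] at h1 h2
    rw [weight_eq, weight_eq]
    rw [eg] at h2 ⊢
    have h := comp_cos (Finset.univ.filter fun e : V × V => G.Adj e.1 e.2) v hPK a h1.1 h2.1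
    rw [mul_comm (∑' m, We _ (fun n : ℤ => lam / 2 * (n : ℝ) ^ 2) v m *
      Real.cos (lin a m))]
    exact h

end

theorem grid_connected (n : ℕ) : (grid n).Connected :=
  (SimpleGraph.pathGraph_connected n).boxProd (SimpleGraph.pathGraph_connected n)

theorem corner_le {lam : ℝ} {u : ℤ → ℝ} {n : ℕ} (h : Dominates (grid n) (0, 0) u lam) :
    corner (gauss lam) n ≤ corner u n := by
  have := h.moment (Pi.single (Fin.last n, Fin.last n) 1)
  have e : ∀ m : Fin (n + 1) × Fin (n + 1) → ℤ,
      lin (Pi.single (Fin.last n, Fin.last n) 1) m = (m (Fin.last n, Fin.last n) : ℝ) := by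
    intro m
    unfold lin
    rw [Finset.sum_eq_single (Fin.last n, Fin.last n)]
    · simp
    · intro b _ hb
      rw [Pi.single_eq_of_ne hb, zero_mul]
    · simp
  unfold corner
  simpa only [e] using this

theorem rate_le {lam : ℝ} {u : ℤ → ℝ} (h : ∀ n, corner (gauss lam) n ≤ corner u n) :
    lowerRate (gauss lam) ≤ lowerRate u := by
  refine liminf_le_liminf (Eventually.of_forall fun n => ?_)
  refine EReal.coe_le_coe_iff.2 (div_le_div_of_nonneg_right (h n) ?_)
  exact Real.log_nonneg (by
    have : (0 : ℝ) ≤ n := Nat.cast_nonneg n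
    linarith)

theorem small_smooth {U : ℝ → ℝ} (hU : ContDiff ℝ 2 U) (hB : ∃ B, ∀ x, |deriv (deriv U) x| ≤ B) :
    SmallSecondDifferences U := by
  obtain ⟨B, hB⟩ := hB
  have hB0 : 0 ≤ B := (abs_nonneg _).trans (hB 0)
  intro ε hε
  refine ⟨min 1 (ε / (2 * B + 1)), lt_min one_pos (by positivity), fun h h0 h1 x => ?_⟩
  have h2 : h < 1 := lt_of_lt_of_le h1 (min_le_left _ _)
  have h3 : h < ε / (2 * B + 1) := lt_of_lt_of_le h1 (min_le_right _ _)
  rw [lt_div_iff₀ (by positivity)] at h3
  refine (sd_smooth hU hB x h0.le).trans ?_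
  nlinarith

theorem small_rpow {α : ℝ} (hα : 0 < α) (hα2 : α ≤ 2) :
    SmallSecondDifferences (fun x => |x| ^ α) := by
  intro ε hε
  refine ⟨(ε / 2) ^ (1 / α), Real.rpow_pos_of_pos (by positivity) _, fun h h0 h1 x => ?_⟩
  have hh : h ^ α ≤ ε / 2 := by
    have := Real.rpow_le_rpow h0.le h1.le hα.le
    rwa [← Real.rpow_mul (by positivity), one_div, inv_mul_cancel₀ hα.ne', Real.rpow_one] at this
  have e : ∀ y : ℝ, |h * y| ^ α = h ^ α * |y| ^ α := by
    intro y
    rw [abs_mul, abs_of_pos h0, Real.mul_rpow h0.le (abs_nonneg _)]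
  have e1 : x + h = h * (x / h + 1) := by field_simp
  have e2 : x - h = h * (x / h - 1) := by field_simp
  have e3 : |x| ^ α = h ^ α * |x / h| ^ α := by
    rw [← e]
    congr 2
    field_simp
  simp only
  rw [e3, e1, e2, e, e]
  have e4 : h ^ α * |x / h + 1| ^ α + h ^ α * |x / h - 1| ^ α - 2 * (h ^ α * |x / h| ^ α)
      = h ^ α * (|x / h + 1| ^ α + |x / h - 1| ^ α - 2 * |x / h| ^ α) := by ring
  rw [e4, abs_mul, abs_of_nonneg (by positivity)]
  have h5 := sd_rpow hα hα2 (x / h)
  have h6 : 0 ≤ h ^ α := by positivity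
  nlinarith [abs_nonneg (|x / h + 1| ^ α + |x / h - 1| ^ α - 2 * |x / h| ^ α)]

theorem power_rpow {α : ℝ} (hα : 0 < α) : PowerGrowth (fun x => |x| ^ α) := by
  refine ⟨α / 2, by positivity, ?_⟩
  refine (tendsto_rpow_atTop (by positivity : 0 < α / 2)).congr' ?_
  filter_upwards [eventually_gt_atTop 0] with x hx
  rw [abs_of_pos hx, ← Real.rpow_sub hx]
  congr 1
  ring

/-- Comparison with the discrete Gaussian surface, on all finite connected graphs and, for
`u^M_n = U (n / M)`, for the corner height on the boxes of the square lattice. -/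
theorem result :
    -- (A) interactions with small second differences, all finite connected graphs
    (∀ lam : ℝ, 0 < lam → ∃ η : ℝ, 0 < η ∧ ∀ u : ℤ → ℝ, (∀ n, u (-n) = u n) →
      (∀ n, |u (n + 1) + u (n - 1) - 2 * u n| ≤ η) →
      (∃ α c C : ℝ, 0 < α ∧ 0 < c ∧ ∀ n : ℤ, c * |(n : ℝ)| ^ α - C ≤ u n) →
      ∀ (V : Type) [Fintype V] (G : SimpleGraph V), G.Connected → ∀ v : V,
        Dominates G v u lam) ∧
    -- (B) the interactions `U (n / M)`
    (∀ U : ℝ → ℝ, Continuous U → (∀ x, U (-x) = U x) → PowerGrowth U →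
      SmallSecondDifferences U → ∀ lam : ℝ, 0 < lam → ∃ M₀ : ℝ, 0 < M₀ ∧ ∀ M : ℝ, M₀ < M →
      ∀ (V : Type) [Fintype V] (G : SimpleGraph V), G.Connected → ∀ v : V,
        Dominates G v (fun n : ℤ => U (n / M)) lam) ∧
    -- (C) the class of (B) contains the `C^2` functions with bounded second derivative and the
    -- powers `|x| ^ α`, `0 < α ≤ 2`
    (∀ U : ℝ → ℝ, ContDiff ℝ 2 U → (∃ B, ∀ x, |deriv (deriv U) x| ≤ B) →
      SmallSecondDifferences U) ∧
    (∀ α : ℝ, 0 < α → α ≤ 2 → Continuous (fun x : ℝ => |x| ^ α) ∧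
      PowerGrowth (fun x => |x| ^ α) ∧ SmallSecondDifferences (fun x => |x| ^ α)) ∧
    -- (D) the square lattice: second moment of the corner height, and its growth rate
    (∀ U : ℝ → ℝ, Continuous U → (∀ x, U (-x) = U x) → PowerGrowth U →
      SmallSecondDifferences U → ∀ lam : ℝ, 0 < lam → ∃ M₀ : ℝ, 0 < M₀ ∧ ∀ M : ℝ, M₀ < M →
        (∀ n : ℕ, corner (gauss lam) n ≤ corner (fun k : ℤ => U (k / M)) n) ∧
        lowerRate (gauss lam) ≤ lowerRate (fun k : ℤ => U (k / M))) := by
  have hA : ∀ lam : ℝ, 0 < lam → ∃ η : ℝ, 0 < η ∧ ∀ u : ℤ → ℝ,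
      (∀ n, |u (n + 1) + u (n - 1) - 2 * u n| ≤ η) →
      (∃ α c C : ℝ, 0 < α ∧ 0 < c ∧ ∀ n : ℤ, c * |(n : ℝ)| ^ α - C ≤ u n) →
      ∀ (V : Type) [Fintype V] (G : SimpleGraph V), G.Connected → ∀ v : V,
        Dominates G v u lam := by
    intro lam hl
    obtain ⟨η, hη, h⟩ := edge_PK (lam := lam / 2) (by positivity)
    exact ⟨2 * η, by positivity, fun u hu hg V _ G hG v => dominates_of hl h hu hg hG v⟩
  have hB : ∀ U : ℝ → ℝ, Continuous U → (∀ x, U (-x) = U x) → PowerGrowth U →
      SmallSecondDifferences U → ∀ lam : ℝ, 0 < lam → ∃ M₀ : ℝ, 0 < M₀ ∧ ∀ M : ℝ, M₀ < M →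
      ∀ (V : Type) [Fintype V] (G : SimpleGraph V), G.Connected → ∀ v : V,
        Dominates G v (fun n : ℤ => U (n / M)) lam := by
    intro U hU he hg hs lam hl
    obtain ⟨η, hη, h⟩ := hA lam hl
    obtain ⟨δ, hδ, hd⟩ := hs η hη
    obtain ⟨α, hα, ht⟩ := hg
    obtain ⟨C, hC⟩ := growth hU he hα ht
    refine ⟨1 / δ, by positivity, fun M hM V _ G hG v => ?_⟩
    have hM0 : 0 < M := lt_trans (by positivity) hM
    refine h _ (fun n => ?_) ⟨α, (1 / M) ^ α, C, hα, Real.rpow_pos_of_pos (by positivity) _,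
      fun n => ?_⟩ V G hG v
    · have h1 := hd (1 / M) (by positivity) (by
        rw [div_lt_iff₀ hM0]
        rw [div_lt_iff₀ hδ] at hM
        linarith) (n / M)
      have e1 : (((n + 1 : ℤ) : ℝ)) / M = n / M + 1 / M := by push_cast; ring
      have e2 : (((n - 1 : ℤ) : ℝ)) / M = n / M - 1 / M := by push_cast; ring
      rw [e1, e2]
      exact h1
    · have h1 := hC (n / M)
      have e : |(n : ℝ) / M| ^ α = (1 / M) ^ α * |(n : ℝ)| ^ α := by
        rw [abs_div, abs_of_pos hM0, div_eq_mul_inv, mul_comm,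
          Real.mul_rpow (by positivity) (abs_nonneg _), one_div]
      rw [e] at h1
      exact h1
  refine ⟨fun lam hl => ?_, hB, fun U hU hb => small_smooth hU hb, fun α hα hα2 =>
    ⟨?_, power_rpow hα, small_rpow hα hα2⟩, fun U hU he hg hs lam hl => ?_⟩
  · obtain ⟨η, hη, h⟩ := hA lam hl
    exact ⟨η, hη, fun u _ hu hg V _ G hG v => h u hu hg V G hG v⟩
  · exact continuous_abs.rpow_const fun x => Or.inr hα.le
  · obtain ⟨M₀, hM₀, h⟩ := hB U hU he hg hs lam hl
    refine ⟨M₀, hM₀, fun M hM => ?_⟩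
    have h1 : ∀ n : ℕ, corner (gauss lam) n ≤ corner (fun k : ℤ => U (k / M)) n :=
      fun n => corner_le (h M hM _ (grid n) (grid_connected n) (0, 0))
    exact ⟨h1, rate_le h1⟩

end Pool.Agent.Results.MP_9cc147_pr.GaussianComparison
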